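import Mathlib

/-!
Cross-index of free Z/4-complexes: an 8-vertex torus and two octahedra.
-/

set_option autoImplicit false

namespace Pool.Agent.R123.XI

open Finset

/-- vertices -/
abbrev V (m : ℕ) := Fin m × ZMod 4

/-- translation -/
def sh {m : ℕ} (k : ZMod 4) (s : Finset (V m)) : Finset (V m) := s.image fun v => (v.1, k + v.2)

theorem mem_sh {m : ℕ} {k : ZMod 4} {s : Finset (V m)} {v : V m} :
    v ∈ sh k s ↔ (v.1, v.2 - k) ∈ s := by
  unfold sh
  rw [mem_image]
  constructor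
  · rintro ⟨w, hw, rfl⟩
    simpa using hw
  · intro h
    exact ⟨_, h, by ext <;> simp⟩

theorem sh_sh {m : ℕ} (k l : ZMod 4) (s : Finset (V m)) : sh k (sh l s) = sh (k + l) s := by
  ext v
  rw [mem_sh, mem_sh, mem_sh]
  have : v.2 - k - l = v.2 - (k + l) := by ring
  simp only [this]

theorem sh_zero {m : ℕ} (s : Finset (V m)) : sh 0 s = s := by
  ext v
  rw [mem_sh]
  simp

theorem sh_mono {m : ℕ} {k : ZMod 4} {s t : Finset (V m)} (h : s ⊆ t) : sh k s ⊆ sh k t :=
  image_subset_image h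

theorem sh_nonempty {m : ℕ} {k : ZMod 4} {s : Finset (V m)} (h : s.Nonempty) :
    (sh k s).Nonempty := h.image _

theorem sh_single {m : ℕ} (k : ZMod 4) (a : Fin m) (i : ZMod 4) :
    sh k {((a, i) : V m)} = {((a, k + i) : V m)} := by
  simp [sh]

theorem sh_pair {m : ℕ} (k : ZMod 4) (a b : Fin m) (i j : ZMod 4) :
    sh k {((a, i) : V m), (b, j)} = {((a, k + i) : V m), (b, k + j)} := by
  simp [sh, image_insert]

section coc

variable {m : ℕ} (K : Finset (V m) → Prop) (f : Finset (V m) → ZMod 4 × Fin 2)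

/-- the integral displacement along a comparability -/
def om (s t : Finset (V m)) : ℤ :=
  if (f s).2 < (f t).2 then (((f t).1 - (f s).1).val : ℤ) else 0

/-- hypotheses: order preserving and equivariant -/
structure Hyp : Prop where
  down : ∀ s t, K t → s ⊆ t → s.Nonempty → K s
  inv : ∀ k s, K s → K (sh k s)
  mono : ∀ s t, K s → K t → s ⊆ t → f s = f t ∨ (f s).2 < (f t).2
  eqv : ∀ k s, K s → f (sh k s) = (k + (f s).1, (f s).2)

variable {K f}

theorem om_cast (H : Hyp K f) {s t : Finset (V m)} (hs : K s) (ht : K t) (h : s ⊆ t) :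
    ((om f s t : ℤ) : ZMod 4) = (f t).1 - (f s).1 := by
  unfold om
  rcases H.mono s t hs ht h with h1 | h1
  · rw [if_neg (by rw [h1]; exact lt_irrefl _), h1]
    simp
  · rw [if_pos h1]
    push_cast
    rw [ZMod.natCast_val, ZMod.cast_id]

theorem om_add (H : Hyp K f) {s t u : Finset (V m)} (hs : K s) (ht : K t) (hu : K u)
    (h : s ⊆ t) (h' : t ⊆ u) : om f s u = om f s t + om f t u := by
  unfold om
  rcases H.mono s t hs ht h with h1 | h1
  · rw [h1]
    simp
  · rcases H.mono t u ht hu h' with h2 | h2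
    · rw [h2]
      simp
    · exfalso
      have a := (f s).2.isLt
      have b := (f t).2.isLt
      have c := (f u).2.isLt
      rw [Fin.lt_def] at h1 h2
      omega

theorem om_sh (H : Hyp K f) {s t : Finset (V m)} (hs : K s) (ht : K t) (k : ZMod 4) :
    om f (sh k s) (sh k t) = om f s t := by
  unfold om
  rw [H.eqv k s hs, H.eqv k t ht]
  simp

/-- the displacement along an edge -/
def ed (f : Finset (V m) → ZMod 4 × Fin 2) (u v : V m) : ℤ := om f {u} {u, v} - om f {v} {u, v}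

theorem ed_neg (u v : V m) : ed f v u = - ed f u v := by
  unfold ed
  rw [pair_comm v u]
  ring

theorem ed_face (H : Hyp K f) {t : Finset (V m)} (ht : K t) {u v : V m} (hu : u ∈ t)
    (hv : v ∈ t) : om f {u} t - om f {v} t = ed f u v := by
  have h2 : ({u, v} : Finset (V m)) ⊆ t := by
    intro w hw
    rw [mem_insert, mem_singleton] at hw
    rcases hw with rfl | rfl
    · exact hu
    · exact hv
  have k2 : K {u, v} := H.down _ _ ht h2 (insert_nonempty _ _)
  have su : ({u} : Finset (V m)) ⊆ {u, v} := by simp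
  have sv : ({v} : Finset (V m)) ⊆ {u, v} := by simp
  have ku : K {u} := H.down _ _ k2 su (singleton_nonempty _)
  have kv : K {v} := H.down _ _ k2 sv (singleton_nonempty _)
  rw [om_add H ku k2 ht su h2, om_add H kv k2 ht sv h2]
  unfold ed
  ring

theorem ed_tri (H : Hyp K f) {u v w : V m} (ht : K {u, v, w}) :
    ed f u v + ed f v w = ed f u w := by
  rw [← ed_face H ht (u := u) (v := v) (by simp) (by simp),
    ← ed_face H ht (u := v) (v := w) (by simp) (by simp),
    ← ed_face H ht (u := u) (v := w) (by simp) (by simp)]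
  ring

theorem ed_sh (H : Hyp K f) {a b : Fin m} {i j : ZMod 4} (h : K {((a, i) : V m), (b, j)})
    (k : ZMod 4) : ed f (a, k + i) (b, k + j) = ed f (a, i) (b, j) := by
  unfold ed
  have ka : K {((a, i) : V m)} := H.down _ _ h (by simp) (singleton_nonempty _)
  have kb : K {((b, j) : V m)} := H.down _ _ h (by simp) (singleton_nonempty _)
  rw [← sh_pair, ← sh_single, ← sh_single, om_sh H ka h, om_sh H kb h]

theorem ed_cast (H : Hyp K f) {u v : V m} (h : K {u, v}) :
    ((ed f u v : ℤ) : ZMod 4) = (f {v}).1 - (f {u}).1 := by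
  unfold ed
  have ka : K {u} := H.down _ _ h (by simp) (singleton_nonempty _)
  have kb : K {v} := H.down _ _ h (by simp) (singleton_nonempty _)
  push_cast
  rw [om_cast H ka h (by simp), om_cast H kb h (by simp)]
  ring

theorem f_single (H : Hyp K f) {a : Fin m} {i : ZMod 4} (h : K {((a, i) : V m)}) (k : ZMod 4) :
    (f {((a, k + i) : V m)}).1 = k + (f {((a, i) : V m)}).1 := by
  rw [← sh_single, H.eqv k _ h]

/-- equal displacement for edges with offsets differing by two is impossible -/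
theorem final (H : Hyp K f) {a b : Fin m} (h0 : K {((a, 0) : V m), (b, 0)})
    (h2 : K {((a, 0) : V m), (b, 2)}) (he : ed f ((a, 0) : V m) (b, 0) = ed f (a, 0) (b, 2)) :
    False := by
  have e0 := ed_cast H h0
  have e2 := ed_cast H h2
  have kb : K {((b, 0) : V m)} := H.down _ _ h0 (by simp) (singleton_nonempty _)
  have h3 := f_single H kb 2
  rw [add_zero] at h3
  rw [h3] at e2
  rw [he, e2] at e0
  have h4 : (2 : ZMod 4) = 0 := by linear_combination e0
  exact absurd h4 (by decide)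

end coc

/-! ### The torus -/

/-- the four triangles -/
def T : Finset (Finset (V 2)) :=
  {{(0, 3), (0, 0), (1, 1)}, {(0, 0), (1, 0), (1, 1)}, {(0, 1), (0, 2), (1, 0)},
    {(0, 1), (1, 0), (1, 1)}}

/-- faces of the torus -/
def K1 (s : Finset (V 2)) : Prop := s.Nonempty ∧ ∃ k : ZMod 4, ∃ t ∈ T, s ⊆ sh k t

theorem K1_down (s t : Finset (V 2)) (ht : K1 t) (h : s ⊆ t) (hs : s.Nonempty) : K1 s := by
  obtain ⟨_, k, r, hr, h2⟩ := ht
  exact ⟨hs, k, r, hr, h.trans h2⟩

theorem K1_inv (k : ZMod 4) (s : Finset (V 2)) (h : K1 s) : K1 (sh k s) := by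
  obtain ⟨h1, l, r, hr, h2⟩ := h
  refine ⟨sh_nonempty h1, k + l, r, hr, ?_⟩
  rw [← sh_sh]
  exact sh_mono h2

theorem K1_of {s : Finset (V 2)} (h : s ∈ T) : K1 s := by
  refine ⟨?_, 0, s, h, by rw [sh_zero]⟩
  unfold T at h
  simp only [mem_insert, mem_singleton] at h
  rcases h with rfl | rfl | rfl | rfl <;> exact insert_nonempty _ _

theorem no_map1 (f : Finset (V 2) → ZMod 4 × Fin 2) (H : Hyp K1 f) : False := by
  have t1 : K1 {(0, 3), (0, 0), (1, 1)} := K1_of (by decide)
  have t2 : K1 {(0, 0), (1, 0), (1, 1)} := K1_of (by decide)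
  have t3 : K1 {(0, 1), (0, 2), (1, 0)} := K1_of (by decide)
  have t4 : K1 {(0, 1), (1, 0), (1, 1)} := K1_of (by decide)
  have e1 := ed_tri H t1
  have e2 := ed_tri H t2
  have e3 := ed_tri H t3
  have e4 := ed_tri H t4
  have p12 : K1 {(0, 1), (0, 2)} := K1_down _ _ t3 (by decide) (by decide)
  have p20 : K1 {(0, 2), (1, 0)} := K1_down _ _ t3 (by decide) (by decide)
  have p00 : K1 {(0, 0), (1, 0)} := K1_down _ _ t2 (by decide) (by decide)
  have s1 := ed_sh H p12 2
  have s2 := ed_sh H p20 1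
  have s3 := ed_sh H p00 1
  have s4 := ed_sh H p20 2
  have c1 : (2 : ZMod 4) + 1 = 3 := by decide
  have c2 : (2 : ZMod 4) + 2 = 0 := by decide
  have c3 : (1 : ZMod 4) + 2 = 3 := by decide
  have c4 : (1 : ZMod 4) + 0 = 1 := by decide
  have c5 : (2 : ZMod 4) + 0 = 2 := by decide
  rw [c1, c2] at s1
  rw [c3, c4] at s2
  rw [c4] at s3
  rw [c2, c5] at s4
  have p02 : K1 {(0, 0), (1, 2)} := by
    have := K1_inv 2 _ p20
    rw [sh_pair, c2, c5] at this
    exact this
  refine final H p00 p02 ?_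
  rw [s4]
  have n1 := ed_neg (f := f) ((0 : Fin 2), (1 : ZMod 4)) ((1 : Fin 2), (0 : ZMod 4))
  omega

/-! ### The octahedra -/

/-- faces of the union of two octahedra -/
def K2 (s : Finset (V 3)) : Prop :=
  s.Nonempty ∧ ∀ u ∈ s, ∀ v ∈ s, (u.2 = v.2 ∨ (u.2 = v.2 + 2 ∧ u.1 ≠ v.1)) ∧
    (u.1 = v.1 → u.2 = v.2)

theorem K2_down (s t : Finset (V 3)) (ht : K2 t) (h : s ⊆ t) (hs : s.Nonempty) : K2 s :=
  ⟨hs, fun u hu v hv => ht.2 u (h hu) v (h hv)⟩

theorem K2_inv (k : ZMod 4) (s : Finset (V 3)) (h : K2 s) : K2 (sh k s) := by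
  refine ⟨sh_nonempty h.1, fun u hu v hv => ?_⟩
  rw [mem_sh] at hu hv
  obtain ⟨h1, h2⟩ := h.2 _ hu _ hv
  simp only at h1 h2
  refine ⟨?_, fun he => ?_⟩
  · rcases h1 with h1 | ⟨h1, h3⟩
    · left; linear_combination h1
    · right; exact ⟨by linear_combination h1, h3⟩
  · have := h2 he
    linear_combination this

theorem K2_tri (j k : ZMod 4) (hj : j = 0 ∨ j = 2) (hk : k = 0 ∨ k = 2) :
    K2 {((0, 0) : V 3), (1, j), (2, k)} := by
  rcases hj with rfl | rfl <;> rcases hk with rfl | rfl <;>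
    exact ⟨insert_nonempty _ _, by decide⟩

theorem no_map2 (f : Finset (V 3) → ZMod 4 × Fin 2) (H : Hyp K2 f) : False := by
  have t00 := K2_tri 0 0 (Or.inl rfl) (Or.inl rfl)
  have t02 := K2_tri 0 2 (Or.inl rfl) (Or.inr rfl)
  have t20 := K2_tri 2 0 (Or.inr rfl) (Or.inl rfl)
  have t22 := K2_tri 2 2 (Or.inr rfl) (Or.inr rfl)
  have e00 := ed_tri H t00
  have e02 := ed_tri H t02
  have e20 := ed_tri H t20
  have e22 := ed_tri H t22
  have p0 : K2 {((1, 0) : V 3), (2, 0)} := K2_down _ _ t00 (by decide) (by decide)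
  have p2 : K2 {((1, 0) : V 3), (2, 2)} := K2_down _ _ t02 (by decide) (by decide)
  have s0 := ed_sh H p0 2
  have s2 := ed_sh H p2 2
  have c2 : (2 : ZMod 4) + 2 = 0 := by decide
  have c5 : (2 : ZMod 4) + 0 = 2 := by decide
  rw [c5] at s0
  rw [c2, c5] at s2
  have q0 : K2 {((0, 0) : V 3), (1, 0)} := K2_down _ _ t00 (by decide) (by decide)
  have q2 : K2 {((0, 0) : V 3), (1, 2)} := K2_down _ _ t20 (by decide) (by decide)
  refine final H q0 q2 ?_
  omega

/-! ### The map for the subgroup of order two -/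

def A0 : Finset (V 2) := {(0, 1), (0, 2), (1, 0), (1, 3)}
def A2 : Finset (V 2) := {(0, 3), (0, 0), (1, 1), (1, 2)}

/-- colours and levels of the faces of the torus -/
def psi (s : Finset (V 2)) : ZMod 4 × Fin 2 :=
  if s ⊆ A0 then (0, 0) else if s ⊆ A2 then (2, 0) else
    if (0, 2) ∈ s ∨ (0, 3) ∈ s ∨ ((1, 2) ∈ s ∧ (1, 3) ∈ s) then (0, 1) else (2, 1)

theorem psi_check : ∀ k : ZMod 4, ∀ t ∈ T, ∀ s ∈ (sh k t).powerset,
    psi (sh 2 s) = (2 + (psi s).1, (psi s).2) ∨ s = ∅ := by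
  decide +kernel

theorem psi_check2 : ∀ k : ZMod 4, ∀ t ∈ T, ∀ s ∈ (sh k t).powerset, ∀ r ∈ s.powerset,
    psi r = psi s ∨ (psi r).2 < (psi s).2 ∨ r = ∅ := by
  decide +kernel

theorem psi_mono (s t : Finset (V 2)) (hs : K1 s) (ht : K1 t) (h : s ⊆ t) :
    psi s = psi t ∨ (psi s).2 < (psi t).2 := by
  obtain ⟨_, k, r, hr, h2⟩ := ht
  rcases psi_check2 k r hr t (mem_powerset.2 h2) s (mem_powerset.2 h) with h3 | h3 | h3
  · exact Or.inl h3
  · exact Or.inr h3
  · exact absurd h3 hs.1.ne_empty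

theorem psi_eqv (s : Finset (V 2)) (hs : K1 s) : psi (sh 2 s) = (2 + (psi s).1, (psi s).2) := by
  obtain ⟨h0, k, r, hr, h2⟩ := hs
  rcases psi_check k r hr s (mem_powerset.2 h2) with h3 | h3
  · exact h3
  · exact absurd h3 h0.ne_empty

/-- colours and levels of the pairs of faces; `e` is the index of a vertex of the second face -/
def phi (e : ZMod 4) (s : Finset (V 2)) : ZMod 4 × Fin 2 :=
  (e + (psi (sh (-e) s)).1, (psi (sh (-e) s)).2)

theorem phi_two (e : ZMod 4) (s : Finset (V 2)) (hs : K1 s) : phi (e + 2) s = phi e s := by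
  unfold phi
  have h1 : sh (-(e + 2)) s = sh 2 (sh (-e) s) := by
    rw [sh_sh]
    congr 1
    have : (4 : ZMod 4) = 0 := by decide
    linear_combination -this
  rw [h1, psi_eqv _ (K1_inv _ _ hs)]
  refine Prod.ext ?_ rfl
  have : (4 : ZMod 4) = 0 := by decide
  simp only
  linear_combination this

theorem phi_congr {e e' : ZMod 4} (h : e = e' ∨ e = e' + 2) (s : Finset (V 2)) (hs : K1 s) :
    phi e s = phi e' s := by
  rcases h with rfl | rfl
  · rfl
  · exact phi_two _ _ hs

theorem phi_mono (e : ZMod 4) (s t : Finset (V 2)) (hs : K1 s) (ht : K1 t) (h : s ⊆ t) :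
    phi e s = phi e t ∨ (phi e s).2 < (phi e t).2 := by
  unfold phi
  rcases psi_mono _ _ (K1_inv (-e) s hs) (K1_inv (-e) t ht) (sh_mono h) with h1 | h1
  · left; rw [h1]
  · right; exact h1

theorem phi_eqv (e k : ZMod 4) (s : Finset (V 2)) :
    phi (k + e) (sh k s) = (k + (phi e s).1, (phi e s).2) := by
  unfold phi
  have h1 : sh (-(k + e)) (sh k s) = sh (-e) s := by
    rw [sh_sh]
    congr 1
    ring
  rw [h1]
  refine Prod.ext ?_ rfl
  simp only
  ring

/-! ### Freeness -/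

theorem T_check : ∀ t ∈ T, ∀ v ∈ t, ((v.1, v.2 + 2) : V 2) ∉ t := by decide +kernel

theorem K1_nopair (s : Finset (V 2)) (hs : K1 s) (v : V 2) (hv : v ∈ s) :
    ((v.1, v.2 + 2) : V 2) ∉ s := by
  obtain ⟨h0, k, r, hr, h2⟩ := hs
  intro h3
  have h4 := h2 hv
  have h5 := h2 h3
  rw [mem_sh] at h4 h5
  refine T_check r hr _ h4 ?_
  simp only at h5 ⊢
  rw [sub_add_eq_add_sub]
  exact h5

theorem K2_nopair (s : Finset (V 3)) (hs : K2 s) (v : V 3) (hv : v ∈ s) :
    ((v.1, v.2 + 2) : V 3) ∉ s := by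
  intro h3
  have h4 := (hs.2 _ h3 _ hv).2 rfl
  simp only at h4
  have : (2 : ZMod 4) = 0 := by linear_combination h4
  exact absurd this (by decide)

theorem z4 : ∀ k : ZMod 4, k + k ≠ 2 → k ≠ 2 → k = 0 := by decide

theorem free_of {m : ℕ} (s : Finset (V m)) (h0 : s.Nonempty)
    (h : ∀ v ∈ s, ((v.1, v.2 + 2) : V m) ∉ s) (k : ZMod 4) (hk : sh k s = s) : k = 0 := by
  obtain ⟨v, hv⟩ := h0
  have step : ∀ w ∈ s, ((w.1, w.2 + k) : V m) ∈ s := by
    intro w hw
    rw [← hk, mem_sh]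
    simpa using hw
  have h2 : k + k ≠ 2 := by
    intro h3
    refine h v hv ?_
    have := step _ (step v hv)
    simp only at this
    rw [add_assoc, h3] at this
    exact this
  have h1 : k ≠ 2 := by
    rintro rfl
    exact h v hv (step v hv)
  exact z4 k h2 h1

theorem K2_parity (s : Finset (V 3)) (hs : K2 s) (u v : V 3) (hu : u ∈ s) (hv : v ∈ s) :
    u.2 = v.2 ∨ u.2 = v.2 + 2 := by
  rcases (hs.2 u hu v hv).1 with h | h
  · exact Or.inl h
  · exact Or.inr h.1

/-- an equivariant colouring of a free action -/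
theorem exists_color {G P : Type} [Group G] [MulAction G P] (hf : ∀ (g : G) (p : P), g • p = p → g = 1) :
    ∃ c : P → G, ∀ g p, c (g • p) = g * c p := by
  classical
  have hr : ∀ p : P, ∃ g : G, g • (Quotient.mk (MulAction.orbitRel G P) p).out = p := by
    intro p
    have h := Quotient.mk_out (s := MulAction.orbitRel G P) p
    rw [MulAction.orbitRel_apply] at h
    obtain ⟨g, hg⟩ := h
    refine ⟨g⁻¹, ?_⟩
    rw [← hg]
    simp
  choose c hc using hr
  refine ⟨c, fun g p => ?_⟩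
  have h1 : (Quotient.mk (MulAction.orbitRel G P) (g • p)) = Quotient.mk (MulAction.orbitRel G P) p := by
    apply Quotient.sound
    exact ⟨g, rfl⟩
  have h2 := hc (g • p)
  rw [h1] at h2
  have h3 := hc p
  have h4 : (g * c p)⁻¹ * c (g • p) = 1 := by
    apply hf _ (Quotient.mk (MulAction.orbitRel G P) p).out
    rw [mul_smul, h2, mul_inv_rev, mul_smul, inv_smul_smul, inv_smul_eq_iff, h3]
  exact (inv_mul_eq_one.1 h4).symm

end Pool.Agent.R123.XI
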